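import Mathlib

namespace Pool.Agent.H.MP_472e54_mp

open Matrix
open scoped Kronecker ComplexOrder

/-- states -/
def St {ι : Type} [Fintype ι] (ρ : Matrix ι ι ℂ) : Prop := ρ.PosSemidef ∧ ρ.trace = 1

/-- entanglement witnesses -/
def EW {ι κ : Type} [Fintype ι] [Fintype κ] (W : Matrix (ι × κ) (ι × κ) ℂ) : Prop :=
  W.IsHermitian ∧
    (∀ σ ∈ convexHull ℝ {σ | ∃ α β, St α ∧ St β ∧ σ = α ⊗ₖ β}, 0 ≤ (W * σ).trace.re) ∧
    ∃ ρ, St ρ ∧ (W * ρ).trace.re < 0

/-- optimal entanglement witnesses -/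
def Opt {ι κ : Type} [Fintype ι] [Fintype κ] (W : Matrix (ι × κ) (ι × κ) ℂ) : Prop :=
  EW W ∧ ¬ ∃ (ε : ℝ) (P : Matrix (ι × κ) (ι × κ) ℂ), 0 < ε ∧ P.PosSemidef ∧ P ≠ 0 ∧
    EW (W - (ε : ℂ) • P)

theorem tr_vec {n : Type} [Fintype n] (Z : Matrix n n ℂ) (v : n → ℂ) :
    (Z * vecMulVec v (star v)).trace = star v ⬝ᵥ Z *ᵥ v := by
  rw [mul_vecMulVec, trace_vecMulVec, dotProduct_comm]

theorem norm_state {n : Type} [Fintype n] (v : n → ℂ) (hv : v ≠ 0) :
    ∃ c : ℝ, 0 < c ∧ St ((c : ℂ) • vecMulVec v (star v)) := by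
  have h1 : 0 < star v ⬝ᵥ v := dotProduct_star_self_pos_iff.2 hv
  obtain ⟨h2, h3⟩ := Complex.pos_iff.1 h1
  refine ⟨(star v ⬝ᵥ v).re⁻¹, inv_pos.2 h2, (posSemidef_vecMulVec_self_star v).smul
    (by exact_mod_cast (inv_pos.2 h2).le), ?_⟩
  have h4 : star v ⬝ᵥ v = ((star v ⬝ᵥ v).re : ℂ) := Complex.ext rfl h3.symm
  rw [trace_smul, trace_vecMulVec, dotProduct_comm v, smul_eq_mul, Complex.ofReal_inv, ← h4,
    inv_mul_cancel₀ h1.ne']

section lift
variable {ι κ m : Type} [Fintype ι] [Fintype κ] [Fintype m] [DecidableEq κ] (e : ι ≃ m × κ)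

/-- `Y ⊗ 1`, read on `ι ≃ m × κ` -/
def L (Y : Matrix (m × m) (m × m) ℂ) : Matrix (ι × ι) (ι × ι) ℂ := fun x y =>
  if (e x.1).2 = (e y.1).2 ∧ (e x.2).2 = (e y.2).2 then
    Y ((e x.1).1, (e x.2).1) ((e y.1).1, (e y.2).1) else 0

/-- extension by zero -/
def ex (c : κ) (a : m → ℂ) : ι → ℂ := fun x => if (e x).2 = c then a (e x).1 else 0

omit [DecidableEq κ] in
theorem sum2 (f : ι × ι → ℂ) :
    ∑ x, f x = ∑ c, ∑ c', ∑ z : m × m, f (e.symm (z.1, c), e.symm (z.2, c')) := by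
  simp only [← Fintype.sum_prod_type']
  exact (Fintype.sum_equiv ⟨fun t => (e.symm (t.2.2.1, t.1), e.symm (t.2.2.2, t.2.1)),
    fun x => ((e x.1).2, (e x.2).2, (e x.1).1, (e x.2).1), fun _ => by simp,
    fun _ => by simp⟩ _ _ fun _ => rfl).symm

theorem trL (Y : Matrix (m × m) (m × m) ℂ) (Z : Matrix (ι × ι) (ι × ι) ℂ) :
    (L e Y * Z).trace = ∑ c, ∑ c', (Y * Z.submatrix
      (fun z : m × m => (e.symm (z.1, c), e.symm (z.2, c')))
      (fun z : m × m => (e.symm (z.1, c), e.symm (z.2, c')))).trace := by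
  simp only [trace, diag_apply, mul_apply]
  rw [sum2 e]
  refine Finset.sum_congr rfl fun c _ => Finset.sum_congr rfl fun c' _ =>
    Finset.sum_congr rfl fun z _ => ?_
  rw [sum2 e, Finset.sum_eq_single c, Finset.sum_eq_single c']
  · simp [L]
  · intro d _ hd
    simp [L, hd.symm]
  · simp
  · intro d _ hd
    simp [L, hd.symm]
  · simp

theorem qL (Y : Matrix (m × m) (m × m) ℂ) (v : ι × ι → ℂ) (w : m × m → ℂ) (c c' : κ)
    (h : ∀ z d d', v (e.symm (z.1, d), e.symm (z.2, d')) = if d = c ∧ d' = c' then w z else 0) :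
    star v ⬝ᵥ L e Y *ᵥ v = star w ⬝ᵥ Y *ᵥ w := by
  rw [← tr_vec, ← tr_vec, trL, Finset.sum_eq_single c, Finset.sum_eq_single c']
  · congr 2
    ext z z'
    simp [vecMulVec_apply, h]
  · intro d _ hd
    rw [show submatrix _ _ _ = 0 from by ext z z'; simp [vecMulVec_apply, h, hd]]
    simp
  · simp
  · intro d _ hd
    refine Finset.sum_eq_zero fun d' _ => ?_
    rw [show submatrix _ _ _ = 0 from by ext z z'; simp [vecMulVec_apply, h, hd]]
    simp
  · simp

theorem opt_lift [Nonempty κ] (Y : Matrix (m × m) (m × m) ℂ) (hH : Y.IsHermitian)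
    (hpos : ∀ α β : Matrix m m ℂ, St α → St β → 0 ≤ (Y * α ⊗ₖ β).trace.re)
    (hneg : ∃ w, (star w ⬝ᵥ Y *ᵥ w).re < 0)
    (hspan : ∀ p : m × m → ℂ, (∀ a b : m → ℂ, a ≠ 0 → b ≠ 0 →
      star (fun z : m × m => a z.1 * b z.2) ⬝ᵥ Y *ᵥ (fun z => a z.1 * b z.2) = 0 →
      ∑ z, p z * (a z.1 * b z.2) = 0) → p = 0) : Opt (L e Y) := by
  refine ⟨⟨?_, ?_, ?_⟩, ?_⟩
  · ext x y
    simp only [conjTranspose_apply, L, eq_comm (a := (e y.1).2), eq_comm (a := (e y.2).2)]
    split_ifs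
    · exact hH.apply _ _
    · simp
  · refine convexHull_min ?_ ?_
    · rintro _ ⟨α, β, hα, hβ, rfl⟩
      have h1 : ∀ γ : Matrix ι ι ℂ, St γ →
          St (∑ c, γ.submatrix (fun i => e.symm (i, c)) (fun i => e.symm (i, c))) := by
        intro γ hγ
        refine ⟨posSemidef_sum _ fun c _ => hγ.1.submatrix _, ?_⟩
        rw [← hγ.2, trace_sum]
        simp only [trace, diag_apply, submatrix_apply]
        rw [Finset.sum_comm, ← Fintype.sum_prod_type']
        exact e.symm.sum_comp fun x => γ x x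
      refine le_of_le_of_eq (hpos _ _ (h1 α hα) (h1 β hβ)) ?_
      rw [trL]
      simp only [← trace_sum, ← Finset.mul_sum]
      congr 3
      ext z z'
      simp [Matrix.sum_apply, Finset.sum_mul_sum]
    · intro σ hσ τ hτ a b ha hb _
      change 0 ≤ (L e Y * σ).trace.re at hσ
      change 0 ≤ (L e Y * τ).trace.re at hτ
      change 0 ≤ (L e Y * (a • σ + b • τ)).trace.re
      simp only [mul_add, mul_smul_comm, trace_add, trace_smul, Complex.add_re,
        Complex.smul_re, smul_eq_mul]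
      positivity
  · obtain ⟨w, hw⟩ := hneg
    obtain ⟨c⟩ := ‹Nonempty κ›
    obtain ⟨v, hv⟩ : ∃ v : ι × ι → ℂ, v = fun x => if (e x.1).2 = c ∧ (e x.2).2 = c then
      w ((e x.1).1, (e x.2).1) else 0 := ⟨_, rfl⟩
    have h1 := qL e Y v w c c (by simp [hv])
    obtain ⟨t, ht, h2⟩ := norm_state v (by rintro rfl; rw [← h1] at hw; simp at hw)
    refine ⟨_, h2, ?_⟩
    rw [mul_smul_comm, trace_smul, tr_vec, h1, smul_eq_mul, Complex.re_ofReal_mul]
    exact mul_neg_of_pos_of_neg ht hw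
  · rintro ⟨ε, P, hε, hP, h0, -, h1, -⟩
    apply h0
    ext x y
    have h2 := hspan (fun z => P x (e.symm (z.1, (e y.1).2), e.symm (z.2, (e y.2).2))) ?_
    · simpa using congrFun h2 ((e y.1).1, (e y.2).1)
    intro a b ha hb hab
    generalize (e y.1).2 = c, (e y.2).2 = c'
    have h3 : ∀ (d : κ) (u : m → ℂ), u ≠ 0 → ex e d u ≠ 0 := by
      intro d u hu h
      apply hu
      ext i
      simpa [ex] using congrFun h (e.symm (i, d))
    obtain ⟨s, hs, h4⟩ := norm_state _ (h3 c a ha)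
    obtain ⟨t, ht, h5⟩ := norm_state _ (h3 c' b hb)
    have h6 := h1 _ (subset_convexHull ℝ _ ⟨_, _, h4, h5, rfl⟩)
    obtain ⟨v, hv⟩ : ∃ v : ι × ι → ℂ, v = fun x => ex e c a x.1 * ex e c' b x.2 := ⟨_, rfl⟩
    have h7 : ∀ z d d', v (e.symm (z.1, d), e.symm (z.2, d')) =
        if d = c ∧ d' = c' then (fun z : m × m => a z.1 * b z.2) z else 0 := by
      intro z d d'
      by_cases h : d = c <;> by_cases h' : d' = c' <;> simp [hv, ex, h, h']
    have h8 : ((s : ℂ) • vecMulVec (ex e c a) (star (ex e c a))) ⊗ₖ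
        ((t : ℂ) • vecMulVec (ex e c' b) (star (ex e c' b))) =
        ((s * t : ℝ) : ℂ) • vecMulVec v (star v) := by
      ext z z'
      simp [vecMulVec_apply, hv]
      ring
    rw [h8, mul_smul_comm, trace_smul, tr_vec, sub_mulVec, dotProduct_sub, qL e Y v _ c c' h7, hab,
      smul_mulVec, dotProduct_smul, smul_eq_mul, smul_eq_mul, Complex.re_ofReal_mul,
      zero_sub, Complex.neg_re, Complex.re_ofReal_mul] at h6
    obtain ⟨h9, h10⟩ := Complex.nonneg_iff.1 (hP.dotProduct_mulVec_nonneg v)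
    have h11 : (star v ⬝ᵥ P *ᵥ v).re = 0 := by
      by_contra h13
      have h14 := mul_pos (mul_pos hs ht) (mul_pos hε (lt_of_le_of_ne h9 (Ne.symm h13)))
      linarith
    have h12 := congrFun ((hP.dotProduct_mulVec_zero_iff v).1 (Complex.ext h11 h10.symm)) x
    rw [mulVec, dotProduct, sum2 e, Finset.sum_eq_single c, Finset.sum_eq_single c'] at h12
    · simpa [h7] using h12
    · intro d _ hd
      simp [h7, hd]
    · simp
    · intro d _ hd
      simp [h7, hd]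
    · simp

omit [Fintype ι] [Fintype κ] [Fintype m] in
theorem L_add [DecidableEq ι] [DecidableEq m] (Y Y' : Matrix (m × m) (m × m) ℂ) (u : ℂ)
    (h : Y + Y' = u • 1) : L e Y + L e Y' = u • 1 := by
  ext x y
  have h1 := congrFun (congrFun h ((e x.1).1, (e x.2).1)) ((e y.1).1, (e y.2).1)
  have h2 : x = y ↔ ((e x.1).2 = (e y.1).2 ∧ (e x.2).2 = (e y.2).2) ∧
      ((e x.1).1, (e x.2).1) = ((e y.1).1, (e y.2).1) := by
    rw [Prod.ext_iff, ← e.injective.eq_iff, ← e.injective.eq_iff, Prod.ext_iff, Prod.ext_iff,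
      Prod.ext_iff]
    tauto
  simp only [Matrix.add_apply, Matrix.smul_apply, one_apply, L, h2] at h1 ⊢
  by_cases h3 : (e x.1).2 = (e y.1).2 ∧ (e x.2).2 = (e y.2).2
  · simp only [h3, and_self, if_true, true_and, h1]
  · simp [h3]

end lift

/-- the traceless operator whose product numerical range is `[-38, 38]` -/
def X : Matrix (Fin 3 × Fin 3) (Fin 3 × Fin 3) GaussianInt := fun x y =>
  if x = y then !![11, 26, -37; -37, 11, 26; 26, -37, 11] x.1 x.2
  else if x.1 = x.2 ∧ y.1 = y.2 then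
    !![0, ⟨0, 57⟩, ⟨0, -57⟩; ⟨0, -57⟩, 0, ⟨0, 57⟩; ⟨0, 57⟩, ⟨0, -57⟩, 0] x.1 y.1 else 0

/-- the two witnesses, `s = 1` and `s = -1` -/
noncomputable def Y (s : GaussianInt) : Matrix (Fin 3 × Fin 3) (Fin 3 × Fin 3) ℂ :=
  ((38 : GaussianInt) • (1 : Matrix _ _ GaussianInt) - s • X).map GaussianInt.toComplex

theorem trY (s : ℤ) (Z : Matrix (Fin 3 × Fin 3) (Fin 3 × Fin 3) ℂ) :
    (Y s * Z).trace = 38 * Z.trace - s * (11 * (Z (0, 0) (0, 0) + Z (1, 1) (1, 1) + Z (2, 2) (2, 2))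
      + 26 * (Z (0, 1) (0, 1) + Z (1, 2) (1, 2) + Z (2, 0) (2, 0))
      - 37 * (Z (1, 0) (1, 0) + Z (2, 1) (2, 1) + Z (0, 2) (0, 2))
      + 57 * Complex.I * (Z (1, 1) (0, 0) + Z (2, 2) (1, 1) + Z (0, 0) (2, 2)
        - Z (0, 0) (1, 1) - Z (1, 1) (2, 2) - Z (2, 2) (0, 0))) := by
  simp [Y, X, trace, mul_apply, Fintype.sum_prod_type, Fin.sum_univ_three, one_apply,
    GaussianInt.toComplex_def', map_ofNat]
  ring

theorem minor {n : Type} [Fintype n] (α : Matrix n n ℂ) (h : α.PosSemidef) (i j : n) :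
    (α i j).re ^ 2 + (α i j).im ^ 2 ≤ (α i i).re * (α j j).re := by
  have h1 := (h.submatrix ![i, j]).det_nonneg
  rw [det_fin_two] at h1
  have h2 := (Complex.nonneg_iff.1 h1).1
  have h3 := h.1.apply j i
  have h4 := (Complex.nonneg_iff.1 (h.diag_nonneg (i := i))).2
  simp only [submatrix_apply, cons_val_zero, cons_val_one, ← h3] at h2
  simp [← h4] at h2
  linarith

theorem Y_herm (s : ℤ) : (Y s).IsHermitian := by
  have h : ∀ x y, star (X y x) = X x y := by decide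
  ext x y
  simp only [conjTranspose_apply, Y, map_apply, Matrix.sub_apply, Matrix.smul_apply, one_apply,
    eq_comm (a := y)]
  rw [← h x y]
  split_ifs <;> simp [map_ofNat]

theorem Y_pos (s : ℤ) (hs : s = 1 ∨ s = -1) (α β : Matrix (Fin 3) (Fin 3) ℂ) (hα : St α)
    (hβ : St β) : 0 ≤ (Y s * α ⊗ₖ β).trace.re := by
  rw [trY, trace_kronecker, hα.2, hβ.2]
  have a0 := minor α hα.1 0 1
  have a1 := minor α hα.1 1 2
  have a2 := minor α hα.1 2 0
  have b0 := minor β hβ.1 0 1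
  have b1 := minor β hβ.1 1 2
  have b2 := minor β hβ.1 2 0
  have ta := congrArg Complex.re hα.2
  have tb := congrArg Complex.re hβ.2
  have ia := fun i => (Complex.nonneg_iff.1 (hα.1.diag_nonneg (i := i))).2
  simp only [trace, diag_apply, Fin.sum_univ_three, Complex.add_re, Complex.one_re] at ta tb
  simp only [kroneckerMap_apply, ← hα.1.1.apply 1 0, ← hα.1.1.apply 2 1, ← hα.1.1.apply 0 2,
    ← hβ.1.1.apply 1 0, ← hβ.1.1.apply 2 1, ← hβ.1.1.apply 0 2]
  generalize α 0 1 = x0, α 1 2 = x1, α 2 0 = x2, β 0 1 = y0, β 1 2 = y1, β 2 0 = y2 at *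
  have h0 : (α 2 2).re = 1 - (α 0 0).re - (α 1 1).re := by linarith
  have h1 : (β 2 2).re = 1 - (β 0 0).re - (β 1 1).re := by linarith
  rcases hs with rfl | rfl
  · simp [← ia]
    rw [h0] at a1 a2 ⊢
    rw [h1] at b1 b2 ⊢
    generalize (α 0 0).re = p, (α 1 1).re = q, (β 0 0).re = u, (β 1 1).re = v at *
    nlinarith [sq_nonneg (x0.re - y0.im), sq_nonneg (x0.im - y0.re), sq_nonneg (x1.re - y1.im),
      sq_nonneg (x1.im - y1.re), sq_nonneg (x2.re - y2.im), sq_nonneg (x2.im - y2.re),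
      sq_nonneg (57 * p - 19 - (11 * u + 26 * v - 37 * (1 - u - v))),
      sq_nonneg (57 * q - 19 - (11 * v + 26 * (1 - u - v) - 37 * u)),
      sq_nonneg (57 * (1 - p - q) - 19 - (11 * (1 - u - v) + 26 * u - 37 * v))]
  · simp [← ia]
    rw [h0] at a1 a2 ⊢
    rw [h1] at b1 b2 ⊢
    generalize (α 0 0).re = p, (α 1 1).re = q, (β 0 0).re = u, (β 1 1).re = v at *
    nlinarith [sq_nonneg (x0.re + y0.im), sq_nonneg (x0.im + y0.re), sq_nonneg (x1.re + y1.im),
      sq_nonneg (x1.im + y1.re), sq_nonneg (x2.re + y2.im), sq_nonneg (x2.im + y2.re),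
      sq_nonneg (57 * p - 19 + (11 * u + 26 * v - 37 * (1 - u - v))),
      sq_nonneg (57 * q - 19 + (11 * v + 26 * (1 - u - v) - 37 * u)),
      sq_nonneg (57 * (1 - p - q) - 19 + (11 * (1 - u - v) + 26 * u - 37 * v))]

theorem Y_span (s : ℤ) (l m k : ℂ) (hl : l ≠ 0) (hm : m ≠ 0) (hk : k ^ 2 = -1)
    (h : ∀ (i : Fin 3) (t : ℂ), t = 1 ∨ t = -1 ∨ t = Complex.I →
      (Y s * vecMulVec
        (fun z : Fin 3 × Fin 3 => (Pi.single i l + Pi.single (i + 1) (m * t) : Fin 3 → ℂ) z.1 *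
          (Pi.single i m + Pi.single (i + 1) (l * k * star t) : Fin 3 → ℂ) z.2)
        (star fun z : Fin 3 × Fin 3 =>
          (Pi.single i l + Pi.single (i + 1) (m * t) : Fin 3 → ℂ) z.1 *
          (Pi.single i m + Pi.single (i + 1) (l * k * star t) : Fin 3 → ℂ) z.2)).trace = 0)
    (p : Fin 3 × Fin 3 → ℂ) (hp : ∀ a b : Fin 3 → ℂ, a ≠ 0 → b ≠ 0 →
      star (fun z : Fin 3 × Fin 3 => a z.1 * b z.2) ⬝ᵥ Y s *ᵥ (fun z => a z.1 * b z.2) = 0 →
      ∑ z, p z * (a z.1 * b z.2) = 0) : p = 0 := by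
  have h1 : ∀ (i : Fin 3) (t : ℂ), t = 1 ∨ t = -1 ∨ t = Complex.I →
      l * m * p (i, i) + l * l * k * star t * p (i, i + 1) + m * m * t * p (i + 1, i) +
        l * m * k * (t * star t) * p (i + 1, i + 1) = 0 := by
    intro i t ht
    have h2 := hp _ _ (fun h => hl (by simpa using congrFun h i))
      (fun h => hm (by simpa using congrFun h i)) ((tr_vec _ _).symm.trans (h i t ht))
    rw [← h2]
    fin_cases i <;> simp [Fintype.sum_prod_type, Fin.sum_univ_three] <;> ring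
  have hk0 : k ≠ 0 := by
    rintro rfl
    simp at hk
  have h2 : ∀ i : Fin 3, p (i, i) + k * p (i + 1, i + 1) = 0 ∧ p (i, i + 1) = 0 ∧
      p (i + 1, i) = 0 := by
    intro i
    have e1 := h1 i 1 (by simp)
    have e2 := h1 i (-1) (by simp)
    have e3 := h1 i Complex.I (by simp)
    simp only [star_one, star_neg, Complex.star_def, Complex.conj_I] at e1 e2 e3
    refine ⟨mul_left_cancel₀ (mul_ne_zero hl hm) ?_,
      mul_left_cancel₀ (mul_ne_zero (mul_ne_zero hl hl) hk0) ?_,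
      mul_left_cancel₀ (mul_ne_zero hm hm) ?_⟩
    · linear_combination (e1 + e2) / 2
    · linear_combination (e1 - e2) / 4 + Complex.I / 2 * (e3 - (e1 + e2) / 2) +
        (l * l * k * p (i, i + 1) / 2 - m * m * p (i + 1, i) / 2 +
          Complex.I / 2 * l * m * k * p (i + 1, i + 1)) * Complex.I_mul_I
    · linear_combination (e1 - e2) / 4 - Complex.I / 2 * (e3 - (e1 + e2) / 2) -
        (l * l * k * p (i, i + 1) / 2 - m * m * p (i + 1, i) / 2 +
          Complex.I / 2 * l * m * k * p (i + 1, i + 1)) * Complex.I_mul_I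
  obtain ⟨a0, b0, c0⟩ := h2 0
  obtain ⟨a1, b1, c1⟩ := h2 1
  obtain ⟨a2, b2, c2⟩ := h2 2
  change p (0, 0) + k * p (1, 1) = 0 at a0
  change p (1, 1) + k * p (2, 2) = 0 at a1
  change p (2, 2) + k * p (0, 0) = 0 at a2
  have d0 : p (0, 0) = 0 := by
    linear_combination (1 + k) / 2 * (a0 - k * a1 - a2) + (p (0, 0) / 2 +
      (1 + k) / 2 * p (2, 2)) * hk
  have d2 : p (2, 2) = 0 := by linear_combination a2 - k * d0
  have d1 : p (1, 1) = 0 := by linear_combination a1 - k * d2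
  ext ⟨i, j⟩
  fin_cases i <;> fin_cases j <;> assumption

theorem opt_pos {ι κ : Type} [Fintype ι] [Fintype κ] [DecidableEq κ] [Nonempty κ]
    (e : ι ≃ Fin 3 × κ) : Opt (L e (Y (1 : ℤ))) := by
  refine opt_lift e _ (Y_herm 1) (Y_pos 1 (Or.inl rfl))
    ⟨Pi.single (0, 0) 1 + Pi.single (1, 1) (-Complex.I), ?_⟩
    (Y_span 1 (2 + Complex.I) (1 + Complex.I) (-Complex.I) (by simp [Complex.ext_iff])
      (by simp [Complex.ext_iff]) (by simp) ?_)
  · rw [← tr_vec, trY]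
    simp [vecMulVec_apply, trace, Fintype.sum_prod_type, Fin.sum_univ_three]
    norm_num
  · intro i t ht
    rw [trY]
    rcases ht with rfl | rfl | rfl <;> fin_cases i <;>
      simp [vecMulVec_apply, trace, Fintype.sum_prod_type, Fin.sum_univ_three, Complex.ext_iff] <;>
      norm_num

theorem opt_neg {ι κ : Type} [Fintype ι] [Fintype κ] [DecidableEq κ] [Nonempty κ]
    (e : ι ≃ Fin 3 × κ) : Opt (L e (Y (-1 : ℤ))) := by
  refine opt_lift e _ (Y_herm (-1)) (Y_pos (-1) (Or.inr rfl))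
    ⟨Pi.single (0, 0) 1 + Pi.single (1, 1) Complex.I, ?_⟩
    (Y_span (-1) 1 (2 + 2 * Complex.I) Complex.I (by simp)
      (by simp [Complex.ext_iff]) (by simp) ?_)
  · rw [← tr_vec, trY]
    simp [vecMulVec_apply, trace, Fintype.sum_prod_type, Fin.sum_univ_three]
    norm_num
  · intro i t ht
    rw [trY]
    rcases ht with rfl | rfl | rfl <;> fin_cases i <;>
      simp [vecMulVec_apply, trace, Fintype.sum_prod_type, Fin.sum_univ_three, Complex.ext_iff] <;>
      norm_num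

theorem Y_add : Y (1 : ℤ) + Y (-1 : ℤ) = (76 : ℂ) • 1 := by
  ext x y
  simp only [Y, Matrix.add_apply, map_apply, Matrix.sub_apply, Matrix.smul_apply, one_apply]
  split_ifs <;> simp [map_ofNat]
  norm_num

theorem Y_cube : (Y (1 : ℤ) ^ 3).trace ≠ (Y (-1 : ℤ) ^ 3).trace := by
  have h : ∀ s, (Y s ^ 3).trace = GaussianInt.toComplex
      (((38 : GaussianInt) • (1 : Matrix _ _ GaussianInt) - s • X) ^ 3).trace := by
    intro s
    rw [Y, ← RingHom.mapMatrix_apply, ← map_pow, RingHom.mapMatrix_apply, AddMonoidHom.map_trace]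
  rw [h, h, Ne, GaussianInt.toComplex_inj]
  decide +kernel

end Pool.Agent.H.MP_472e54_mp
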